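import Pool.Agent.Helper93.OWN.FORes

set_option autoImplicit false

namespace Pool.Agent.Results.MP_e47d5b_lc.FirstOrderDepth

open FirstOrder
open Pool.Agent.Helper93.OWN (qDepth Defines)

/-- Question Q1 of MP_e47d5b_lc, negative answer. The logical depth `D(T)` of a finite tree `T` is the
least quantifier depth of a first-order sentence of the language of graphs that holds in `T` and in
no finite graph that is not isomorphic to `T`. No partial computable function, on input the adjacency
matrix (a list of rows of truth values) of a finite tree `T`, always returns `D(T)`; nothing is
required of the function on inputs that are not adjacency matrices of trees, not even that it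
halts. -/
theorem result :
    ¬ ∃ f : List (List Bool) →. ℕ, Partrec f ∧
      ∀ (n : ℕ) (T : SimpleGraph (Fin n)) [DecidableRel T.Adj], T.IsTree →
        ∃ d ∈ f (List.ofFn fun i : Fin n => List.ofFn fun j : Fin n => decide (T.Adj i j)),
          IsLeast {q : ℕ | ∃ φ : Language.graph.Sentence, Defines φ T ∧ qDepth φ = q} d :=
  Pool.Agent.Helper93.OWN.firstOrderDepth

end Pool.Agent.Results.MP_e47d5b_lc.FirstOrderDepth
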